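import Mathlib

/-!
The value of the point-versus-interval greedy game on `[0,1]`.
-/

set_option autoImplicit false

namespace Pool.Agent.Results.MP_d7d923_pr.GreedyGameValue

open MeasureTheory Set Filter Topology

noncomputable section

/-- Pure strategies `(a,A)` of RED: the interval `[a,a+A] ⊆ [0,1]`. -/
abbrev Red : Type := {q : ℝ × ℝ // 0 ≤ q.1 ∧ 0 ≤ q.2 ∧ q.1 + q.2 ≤ 1}

/-- Pure strategies of BLUE: points of `[0,1]`. -/
abbrev Blue : Type := Set.Icc (0 : ℝ) 1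

open Classical in
/-- Payoff to RED. -/
def payoff (β : ℝ) (q : Red) (p : Blue) : ℝ :=
  if (p : ℝ) ∈ Set.Icc q.1.1 (q.1.1 + q.1.2) then -β * q.1.2 else q.1.2

/-- Expected payoff when RED plays `μ` and BLUE plays `ν`. -/
def expPayoff (β : ℝ) (μ : ProbabilityMeasure Red) (ν : ProbabilityMeasure Blue) : ℝ :=
  ∫ z, payoff β z.1 z.2 ∂((μ : Measure Red).prod (ν : Measure Blue))

/-- Lower value of the game. -/
def lowerValue (β : ℝ) : ℝ :=
  ⨆ μ : ProbabilityMeasure Red, ⨅ ν : ProbabilityMeasure Blue, expPayoff β μ ν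

/-- Upper value of the game. -/
def upperValue (β : ℝ) : ℝ :=
  ⨅ ν : ProbabilityMeasure Blue, ⨆ μ : ProbabilityMeasure Red, expPayoff β μ ν

/-! ### Measures from monotone functions -/

lemma exists_measure (f : ℝ → ℝ) (hf : Monotone f) (h0 : ∀ x, x ≤ 0 → f x = 0)
    (h1 : ∀ x, 1 ≤ x → f x = 1) :
    ∃ P : Measure ℝ, IsProbabilityMeasure P ∧ P (Icc 0 1) = 1 ∧
      ∀ a b, a ≤ b → f b - f a ≤ P.real (Icc a b) := by
  set F := hf.stieltjesFunction with hF
  have hbot : Tendsto F atBot (𝓝 0) := by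
    apply tendsto_const_nhds.congr'
    filter_upwards [eventually_lt_atBot (0 : ℝ)] with x hx
    rw [hF, hf.stieltjesFunction_eq]
    have h2 : Function.rightLim f x ≤ f 0 := hf.rightLim_le hx
    have h3 : f x ≤ Function.rightLim f x := hf.le_rightLim le_rfl
    rw [h0 0 le_rfl] at h2
    rw [h0 x hx.le] at h3
    linarith
  have htop : Tendsto F atTop (𝓝 1) := by
    apply tendsto_const_nhds.congr'
    filter_upwards [eventually_gt_atTop (1 : ℝ)] with x hx
    rw [hF, hf.stieltjesFunction_eq]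
    have h2 : Function.rightLim f x ≤ f (x + 1) := hf.rightLim_le (by linarith)
    have h3 : f x ≤ Function.rightLim f x := hf.le_rightLim le_rfl
    rw [h1 (x + 1) (by linarith)] at h2
    rw [h1 x hx.le] at h3
    linarith
  have hprob : IsProbabilityMeasure F.measure := by
    constructor
    rw [F.measure_univ hbot htop]
    simp
  have hIcc : ∀ a b, F.measure (Icc a b) = ENNReal.ofReal (Function.rightLim f b - Function.leftLim f a) := by
    intro a b
    rw [F.measure_Icc]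
    congr 2
    have : (⇑F : ℝ → ℝ) = Function.rightLim f := by
      ext x; rw [hF, hf.stieltjesFunction_eq]
    rw [this]
    exact leftLim_rightLim (hf.tendsto_leftLim a)
  refine ⟨F.measure, hprob, ?_, ?_⟩
  · rw [hIcc]
    have e1 : Function.rightLim f 1 = 1 := by
      have h2 : Function.rightLim f 1 ≤ f (1 + 1) := hf.rightLim_le (by linarith)
      have h3 : f 1 ≤ Function.rightLim f 1 := hf.le_rightLim le_rfl
      rw [h1 (1 + 1) (by linarith)] at h2
      rw [h1 1 le_rfl] at h3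
      linarith
    have e2 : Function.leftLim f 0 = 0 := by
      have h2 : Function.leftLim f 0 ≤ f 0 := hf.leftLim_le le_rfl
      have h3 : f (-1) ≤ Function.leftLim f 0 := hf.le_leftLim (by norm_num)
      rw [h0 0 le_rfl] at h2
      rw [h0 (-1) (by norm_num)] at h3
      linarith
    rw [e1, e2]; simp
  · intro a b hab
    rw [Measure.real, hIcc]
    have h2 : Function.leftLim f a ≤ f a := hf.leftLim_le le_rfl
    have h3 : f b ≤ Function.rightLim f b := hf.le_rightLim le_rfl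
    have h4 := hf hab
    rw [ENNReal.toReal_ofReal (by linarith)]
    linarith

/-! ### BLUE's distribution function -/

/-- auxiliary function -/
def gg (v x : ℝ) : ℝ := ⨆ n : ℕ, ((n : ℝ) - (n : ℝ) ^ 2 * v / x)

lemma gg_bdd {v x : ℝ} (hv : 0 < v) (hx : 0 < x) :
    BddAbove (range (fun n : ℕ => (n : ℝ) - (n : ℝ) ^ 2 * v / x)) := by
  refine ⟨x / (4 * v), ?_⟩
  rintro _ ⟨n, rfl⟩
  simp only
  rw [sub_le_iff_le_add, div_add_div _ _ (by positivity) (by positivity), le_div_iff₀ (by positivity)]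
  nlinarith [sq_nonneg (2 * v * n - x)]

lemma gg_nonneg {v x : ℝ} (hv : 0 < v) (hx : 0 < x) : 0 ≤ gg v x := by
  have := le_ciSup (gg_bdd hv hx) 0
  unfold gg
  refine le_trans (le_of_eq ?_) this
  simp

lemma gg_mono {v x y : ℝ} (hv : 0 < v) (hx : 0 < x) (hxy : x ≤ y) : gg v x ≤ gg v y := by
  refine ciSup_mono (gg_bdd hv (lt_of_lt_of_le hx hxy)) (fun n => ?_)
  have : (n : ℝ) ^ 2 * v / y ≤ (n : ℝ) ^ 2 * v / x := by
    apply div_le_div_of_nonneg_left (by positivity) hx hxy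
  linarith

lemma gg_step {v a b : ℝ} (hv : 0 < v) (ha : 0 < a) (hab : a < b) :
    gg v a + (1 - v / (b - a)) ≤ gg v b := by
  have hb : 0 < b := ha.trans hab
  have hba : 0 < b - a := by linarith
  have : gg v a ≤ gg v b - (1 - v / (b - a)) := by
    refine ciSup_le (fun n => ?_)
    have h1 := le_ciSup (gg_bdd hv hb) (n + 1)
    have h2 : ((n + 1 : ℕ) : ℝ) - ((n + 1 : ℕ) : ℝ) ^ 2 * v / b ≤ gg v b := h1
    have h3 : ((n : ℝ) + 1) ^ 2 / b ≤ (n : ℝ) ^ 2 / a + 1 / (b - a) := by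
      rw [div_add_div _ _ ha.ne' hba.ne', div_le_div_iff₀ hb (by positivity)]
      nlinarith [sq_nonneg ((n : ℝ) * (b - a) - a)]
    have h4 : ((n : ℝ) + 1) ^ 2 * v / b ≤ (n : ℝ) ^ 2 * v / a + v / (b - a) := by
      have := mul_le_mul_of_nonneg_right h3 hv.le
      calc ((n : ℝ) + 1) ^ 2 * v / b = ((n : ℝ) + 1) ^ 2 / b * v := by ring
        _ ≤ ((n : ℝ) ^ 2 / a + 1 / (b - a)) * v := this
        _ = _ := by ring
    push_cast at h2
    linarith
  linarith

lemma gg_first {v b : ℝ} (hv : 0 < v) (hb : 0 < b) : 1 - v / b ≤ gg v b := by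
  have := le_ciSup (gg_bdd hv hb) 1
  unfold gg
  refine le_trans (le_of_eq ?_) this
  simp

lemma gg_one {v β : ℝ} (hβ : 0 ≤ β) (hv : 0 < v) (hle : ∀ n : ℕ, 1 ≤ n → (n : ℝ) - (n : ℝ) ^ 2 * v ≤ 1 + β)
    (n₀ : ℕ) (hn₀ : (n₀ : ℝ) - (n₀ : ℝ) ^ 2 * v = 1 + β) : gg v 1 = 1 + β := by
  apply le_antisymm
  · refine ciSup_le (fun n => ?_)
    rw [div_one]
    rcases Nat.eq_zero_or_pos n with h | h
    · subst h; simp; linarith
    · exact hle n h
  · have := le_ciSup (gg_bdd hv one_pos) n₀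
    unfold gg
    refine le_trans (le_of_eq ?_) this
    simp only [div_one]
    rw [hn₀]

/-- BLUE's distribution function -/
def ff (β v x : ℝ) : ℝ := if x ≤ 0 then 0 else gg v (min x 1) / (1 + β)

section blue

variable {β v : ℝ} (hβ : 0 ≤ β) (hv : 0 < v)
  (hle : ∀ n : ℕ, 1 ≤ n → (n : ℝ) - (n : ℝ) ^ 2 * v ≤ 1 + β)
  (n₀ : ℕ) (hn₀ : (n₀ : ℝ) - (n₀ : ℝ) ^ 2 * v = 1 + β)

include hβ hv in
lemma ff_mono : Monotone (ff β v) := by
  intro x y hxy
  unfold ff
  have hb : 0 < 1 + β := by linarith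
  split_ifs with h1 h2 h2
  · exact le_rfl
  · have hy : 0 < min y 1 := lt_min (not_le.mp h2) one_pos
    exact div_nonneg (gg_nonneg hv hy) hb.le
  · exact absurd (hxy.trans h2) h1
  · have hx : 0 < min x 1 := lt_min (not_le.mp h1) one_pos
    exact div_le_div_of_nonneg_right (gg_mono hv hx (min_le_min_right 1 hxy)) hb.le

include hβ hv hle hn₀ in
lemma ff_one (x : ℝ) (hx : 1 ≤ x) : ff β v x = 1 := by
  unfold ff
  rw [if_neg (by linarith), min_eq_right hx, gg_one hβ hv hle n₀ hn₀]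
  exact div_self (by linarith)

include hβ hv in
lemma ff_step {a b : ℝ} (ha : 0 ≤ a) (hab : a < b) (hb : b ≤ 1) :
    (1 - v / (b - a)) / (1 + β) ≤ ff β v b - ff β v a := by
  have hb1 : 0 < 1 + β := by linarith
  have hb0 : 0 < b := lt_of_le_of_lt ha hab
  have e1 : ff β v b = gg v b / (1 + β) := by
    unfold ff
    rw [if_neg (not_le.mpr hb0), min_eq_left hb]
  rcases eq_or_lt_of_le ha with h | h
  · have e2 : ff β v a = 0 := by unfold ff; rw [if_pos h.ge]
    rw [e1, e2, ← h, sub_zero, sub_zero]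
    exact div_le_div_of_nonneg_right (gg_first hv hb0) hb1.le
  · have e2 : ff β v a = gg v a / (1 + β) := by
      unfold ff
      rw [if_neg (not_le.mpr h), min_eq_left (hab.le.trans hb)]
    rw [e1, e2, ← sub_div]
    exact div_le_div_of_nonneg_right (by linarith [gg_step hv h hab]) hb1.le

end blue

/-! ### Payoffs -/

/-- the set of points covered by RED's interval -/
def cov (q : Red) : Set Blue := {p | (p : ℝ) ∈ Icc q.1.1 (q.1.1 + q.1.2)}

lemma cov_meas (q : Red) : MeasurableSet (cov q) := measurable_subtype_coe measurableSet_Icc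

lemma payoff_meas (β : ℝ) : Measurable (fun z : Red × Blue => payoff β z.1 z.2) := by
  unfold payoff
  apply Measurable.ite
  · have h1 : MeasurableSet {z : Red × Blue | z.1.1.1 ≤ (z.2 : ℝ)} :=
      measurableSet_le (by fun_prop) (by fun_prop)
    have h2 : MeasurableSet {z : Red × Blue | (z.2 : ℝ) ≤ z.1.1.1 + z.1.1.2} :=
      measurableSet_le (by fun_prop) (by fun_prop)
    exact h1.inter h2
  · fun_prop
  · fun_prop

lemma payoff_abs {β : ℝ} (hβ : 0 ≤ β) (q : Red) (p : Blue) : |payoff β q p| ≤ 1 + β := by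
  have h2 : 0 ≤ q.1.2 := q.2.2.1
  have h3 : q.1.2 ≤ 1 := by linarith [q.2.1, q.2.2.2]
  unfold payoff
  split_ifs
  · rw [abs_le]; constructor <;> nlinarith
  · rw [abs_le]; constructor <;> linarith

lemma payoff_integrable {β : ℝ} (hβ : 0 ≤ β) (μ : ProbabilityMeasure Red) (ν : ProbabilityMeasure Blue) :
    Integrable (fun z : Red × Blue => payoff β z.1 z.2) ((μ : Measure Red).prod (ν : Measure Blue)) :=
  Integrable.of_bound (payoff_meas β).aestronglyMeasurable (1 + β)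
    (Eventually.of_forall (fun z => payoff_abs hβ z.1 z.2))

lemma expPayoff_abs {β : ℝ} (hβ : 0 ≤ β) (μ : ProbabilityMeasure Red) (ν : ProbabilityMeasure Blue) :
    |expPayoff β μ ν| ≤ 1 + β := by
  unfold expPayoff
  have := norm_integral_le_of_norm_le_const (μ := (μ : Measure Red).prod (ν : Measure Blue))
    (Eventually.of_forall (fun z => payoff_abs hβ z.1 z.2) : ∀ᵐ z ∂((μ : Measure Red).prod (ν : Measure Blue)), ‖payoff β z.1 z.2‖ ≤ 1 + β)
  simpa using this

lemma inner_eq {β : ℝ} (ν : ProbabilityMeasure Blue) (q : Red) :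
    ∫ p, payoff β q p ∂(ν : Measure Blue) = q.1.2 - (1 + β) * q.1.2 * (ν : Measure Blue).real (cov q) := by
  have h : ∀ p, payoff β q p = q.1.2 - (cov q).indicator (fun _ => (1 + β) * q.1.2) p := by
    intro p
    unfold payoff
    by_cases hp : p ∈ cov q
    · have hp' : (p : ℝ) ∈ Icc q.1.1 (q.1.1 + q.1.2) := hp
      rw [indicator_of_mem hp, if_pos hp']; ring
    · have hp' : (p : ℝ) ∉ Icc q.1.1 (q.1.1 + q.1.2) := hp
      rw [indicator_of_notMem hp, if_neg hp']; ring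
  simp only [h]
  rw [integral_sub (integrable_const _) ((integrable_const _).indicator (cov_meas q)),
    integral_indicator_const _ (cov_meas q)]
  simp
  ring

lemma upper_of_inner {β v : ℝ} (hβ : 0 ≤ β) (ν : ProbabilityMeasure Blue)
    (h : ∀ q, ∫ p, payoff β q p ∂(ν : Measure Blue) ≤ v) (μ : ProbabilityMeasure Red) :
    expPayoff β μ ν ≤ v := by
  unfold expPayoff
  rw [integral_prod _ (payoff_integrable hβ μ ν)]
  calc ∫ q, ∫ p, payoff β q p ∂(ν : Measure Blue) ∂(μ : Measure Red)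
      ≤ ∫ _q : Red, v ∂(μ : Measure Red) :=
        integral_mono (payoff_integrable hβ μ ν).integral_prod_left (integrable_const _) h
    _ = v := by simp

lemma lower_of_inner {β v : ℝ} (hβ : 0 ≤ β) (μ : ProbabilityMeasure Red)
    (h : ∀ p, v ≤ ∫ q, payoff β q p ∂(μ : Measure Red)) (ν : ProbabilityMeasure Blue) :
    v ≤ expPayoff β μ ν := by
  unfold expPayoff
  rw [integral_prod_symm _ (payoff_integrable hβ μ ν)]
  calc v = ∫ _p : Blue, v ∂(ν : Measure Blue) := by simp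
    _ ≤ ∫ p, ∫ q, payoff β q p ∂(μ : Measure Red) ∂(ν : Measure Blue) :=
        integral_mono (integrable_const _) (payoff_integrable hβ μ ν).integral_prod_right h

lemma game_value {M N : Type*} [Nonempty M] [Nonempty N] (E : M → N → ℝ) (B : ℝ)
    (hB : ∀ m n, |E m n| ≤ B) (v : ℝ) (h1 : ∀ ε > 0, ∃ m, ∀ n, v - ε ≤ E m n)
    (h2 : ∃ n, ∀ m, E m n ≤ v) :
    (⨆ m, ⨅ n, E m n) = v ∧ (⨅ n, ⨆ m, E m n) = v := by
  obtain ⟨n₀, hn₀⟩ := h2
  have bb : ∀ m, BddBelow (range (E m)) := fun m => ⟨-B, by rintro _ ⟨n, rfl⟩; exact (abs_le.mp (hB m n)).1⟩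
  have ba : ∀ n, BddAbove (range (fun m => E m n)) := fun n => ⟨B, by rintro _ ⟨m, rfl⟩; exact (abs_le.mp (hB m n)).2⟩
  have b1 : BddAbove (range (fun m => ⨅ n, E m n)) :=
    ⟨v, by rintro _ ⟨m, rfl⟩; exact (ciInf_le (bb m) n₀).trans (hn₀ m)⟩
  obtain ⟨m₁, hm₁⟩ := h1 1 one_pos
  have b2 : BddBelow (range (fun n => ⨆ m, E m n)) :=
    ⟨v - 1, by rintro _ ⟨n, rfl⟩; exact (hm₁ n).trans (le_ciSup (ba n) m₁)⟩
  refine ⟨le_antisymm ?_ ?_, le_antisymm ?_ ?_⟩
  · exact ciSup_le (fun m => (ciInf_le (bb m) n₀).trans (hn₀ m))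
  · refine le_of_forall_sub_le (fun ε hε => ?_)
    obtain ⟨m, hm⟩ := h1 ε hε
    exact (le_ciInf hm).trans (le_ciSup b1 m)
  · exact (ciInf_le b2 n₀).trans (ciSup_le hn₀)
  · refine le_ciInf (fun n => le_of_forall_sub_le (fun ε hε => ?_))
    obtain ⟨m, hm⟩ := h1 ε hε
    exact (hm n).trans (le_ciSup (ba n) m)

/-- BLUE's good strategy -/
lemma exists_blue {β v : ℝ} (hβ : 0 ≤ β) (hv : 0 < v)
    (hle : ∀ n : ℕ, 1 ≤ n → (n : ℝ) - (n : ℝ) ^ 2 * v ≤ 1 + β)
    (n₀ : ℕ) (hn₀ : (n₀ : ℝ) - (n₀ : ℝ) ^ 2 * v = 1 + β) :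
    ∃ ν : ProbabilityMeasure Blue, ∀ μ, expPayoff β μ ν ≤ v := by
  obtain ⟨P, hP, hP1, hPI⟩ := exists_measure (ff β v) (ff_mono hβ hv)
    (fun x hx => by unfold ff; rw [if_pos hx]) (fun x hx => ff_one hβ hv hle n₀ hn₀ x hx)
  have hemb : MeasurableEmbedding (Subtype.val : Blue → ℝ) := MeasurableEmbedding.subtype_coe measurableSet_Icc
  have hprob : IsProbabilityMeasure (P.comap (Subtype.val : Blue → ℝ)) := by
    constructor
    rw [hemb.comap_apply, image_univ, Subtype.range_coe]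
    exact hP1
  obtain ⟨νν, hνν⟩ : ∃ νν : ProbabilityMeasure Blue, (νν : Measure Blue) = P.comap Subtype.val :=
    ⟨⟨P.comap Subtype.val, hprob⟩, rfl⟩
  refine ⟨νν, fun μ => upper_of_inner hβ _ (fun q => ?_) μ⟩
  rw [inner_eq, hνν]
  have hq0 := q.2.1
  have hq1 := q.2.2.1
  have hq2 := q.2.2.2
  have hcov : (P.comap (Subtype.val : Blue → ℝ)).real (cov q) = P.real (Icc q.1.1 (q.1.1 + q.1.2)) := by
    rw [Measure.real, Measure.real, hemb.comap_apply]
    congr 2
    ext x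
    simp only [cov, mem_image, mem_ofPred_eq]
    constructor
    · rintro ⟨p, hp, rfl⟩; exact hp
    · intro hx
      exact ⟨⟨x, ⟨hq0.trans hx.1, hx.2.trans hq2⟩⟩, hx, rfl⟩
  rw [hcov]
  rcases eq_or_lt_of_le hq1 with h | h
  · rw [← h]; simp; exact hv.le
  · have h3 := hPI q.1.1 (q.1.1 + q.1.2) (by linarith)
    have h4 := ff_step hβ hv hq0 (show q.1.1 < q.1.1 + q.1.2 by linarith) hq2
    rw [add_sub_cancel_left] at h4
    have h5 := h4.trans h3
    have hb : 0 < 1 + β := by linarith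
    rw [div_le_iff₀ hb] at h5
    have h6 : q.1.2 * (1 - v / q.1.2) = q.1.2 - v := by
      field_simp
    nlinarith [mul_le_mul_of_nonneg_left h5 hq1]

/-- RED's good strategies -/
lemma exists_red {β v : ℝ} (hβ : 0 ≤ β) (n : ℕ) (hn : 1 ≤ n) (hv : ((n : ℝ) - 1 - β) / n ^ 2 = v)
    (ε : ℝ) (hε : 0 < ε) : ∃ μ : ProbabilityMeasure Red, ∀ ν, v - ε ≤ expPayoff β μ ν := by
  have hn0 : (0 : ℝ) < n := by exact_mod_cast hn
  set δ : ℝ := min ε (1 / (2 * n)) with hδ
  have hδ0 : 0 < δ := lt_min hε (by positivity)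
  have hδ1 : δ ≤ 1 / (2 * n) := min_le_right _ _
  set A : ℝ := 1 / n - δ with hA
  have hAn : (n : ℝ) * A = 1 - n * δ := by rw [hA]; field_simp
  have hnδ : (n : ℝ) * δ ≤ 1 / 2 := by
    calc (n : ℝ) * δ ≤ n * (1 / (2 * n)) := mul_le_mul_of_nonneg_left hδ1 hn0.le
      _ = 1 / 2 := by field_simp
  have hA0 : 0 < A := by
    by_contra h
    push Not at h
    nlinarith
  have hfe : ∀ i : Fin n, 0 ≤ ((i : ℕ) : ℝ) / n ∧ 0 ≤ A ∧ ((i : ℕ) : ℝ) / n + A ≤ 1 := by
    intro i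
    have hi : ((i : ℕ) : ℝ) + 1 ≤ n := by exact_mod_cast i.2
    refine ⟨by positivity, hA0.le, ?_⟩
    have : ((i : ℕ) : ℝ) / n + 1 / n ≤ 1 := by
      rw [← add_div, div_le_one hn0]; exact hi
    rw [hA]; linarith
  set q : Fin n → Red := fun i => ⟨(((i : ℕ) : ℝ) / n, A), hfe i⟩ with hq
  set μ : Measure Red := ∑ i : Fin n, ((n : ENNReal))⁻¹ • Measure.dirac (q i) with hμ
  have hnE : (n : ENNReal) ≠ 0 := by exact_mod_cast (by omega : n ≠ 0)
  have hprob : IsProbabilityMeasure μ := by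
    constructor
    simp only [hμ, Measure.coe_finsetSum, Finset.sum_apply, Measure.smul_apply, measure_univ,
      smul_eq_mul, mul_one, Finset.sum_const, Finset.card_univ, Fintype.card_fin, nsmul_eq_mul]
    exact ENNReal.mul_inv_cancel hnE (ENNReal.natCast_ne_top n)
  refine ⟨⟨μ, hprob⟩, fun ν => lower_of_inner hβ _ (fun p => ?_) ν⟩
  change v - ε ≤ ∫ q, payoff β q p ∂μ
  have hmeasq : Measurable (fun q : Red => payoff β q p) :=
    (payoff_meas β).comp (measurable_id.prodMk measurable_const)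
  have hintd : ∀ i : Fin n, Integrable (fun q : Red => payoff β q p) (((n : ENNReal))⁻¹ • Measure.dirac (q i)) := by
    intro i
    refine Integrable.smul_measure ?_ (ENNReal.inv_ne_top.mpr hnE)
    exact Integrable.of_bound hmeasq.aestronglyMeasurable (1 + β) (Eventually.of_forall (fun z => payoff_abs hβ z p))
  rw [hμ, integral_finsetSum_measure (fun i _ => hintd i)]
  have hterm : ∀ i : Fin n, ∫ q, payoff β q p ∂(((n : ENNReal))⁻¹ • Measure.dirac (q i)) =
      (n : ℝ)⁻¹ * payoff β (q i) p := by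
    intro i
    rw [integral_smul_measure, integral_dirac' _ _ hmeasq.stronglyMeasurable]
    simp
  rw [Finset.sum_congr rfl (fun i _ => hterm i), ← Finset.mul_sum]
  classical
  have hpay : ∀ i : Fin n, payoff β (q i) p = A - (if (p : ℝ) ∈ Icc (((i : ℕ) : ℝ) / n) (((i : ℕ) : ℝ) / n + A) then (1 + β) * A else 0) := by
    intro i
    unfold payoff
    simp only [hq]
    split_ifs <;> ring
  rw [Finset.sum_congr rfl (fun i _ => hpay i), Finset.sum_sub_distrib, ← Finset.sum_filter]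
  simp only [Finset.sum_const, Finset.card_univ, Fintype.card_fin, nsmul_eq_mul]
  set T := Finset.univ.filter (fun i : Fin n => (p : ℝ) ∈ Icc (((i : ℕ) : ℝ) / n) (((i : ℕ) : ℝ) / n + A)) with hT
  have hcard : T.card ≤ 1 := by
    rw [Finset.card_le_one]
    have aux : ∀ i ∈ T, ∀ j ∈ T, ¬ i < j := by
      intro i hi j hj hij
      rw [hT, Finset.mem_filter] at hi hj
      have h1 := hi.2.2
      have h2 := hj.2.1
      have h3 : ((i : ℕ) : ℝ) + 1 ≤ ((j : ℕ) : ℝ) := by exact_mod_cast hij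
      have h4 : ((i : ℕ) : ℝ) / n + 1 / n ≤ ((j : ℕ) : ℝ) / n := by
        rw [← add_div]; exact div_le_div_of_nonneg_right h3 hn0.le
      rw [hA] at h1
      linarith
    intro i hi j hj
    rcases lt_trichotomy i j with h | h | h
    · exact absurd h (aux i hi j hj)
    · exact h
    · exact absurd h (aux j hj i hi)
  have hcardR : (T.card : ℝ) ≤ 1 := by exact_mod_cast hcard
  have hbA : 0 ≤ (1 + β) * A := by positivity
  have h7 : (n : ℝ)⁻¹ * (n * A - (1 + β) * A) ≤ (n : ℝ)⁻¹ * (n * A - T.card * ((1 + β) * A)) := by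
    apply mul_le_mul_of_nonneg_left _ (by positivity)
    nlinarith
  refine le_trans ?_ h7
  have h8 : (n : ℝ)⁻¹ * (n * A - (1 + β) * A) = v - δ * (((n : ℝ) - 1 - β) / n) := by
    rw [← hv, hA]
    field_simp
    ring
  rw [h8]
  have h9 : ((n : ℝ) - 1 - β) / n ≤ 1 := by
    rw [div_le_one hn0]; linarith
  have h10 : δ * (((n : ℝ) - 1 - β) / n) ≤ δ := by nlinarith
  have h11 : δ ≤ ε := min_le_left _ _
  linarith

/-- the maximum is attained and positive -/
lemma exists_max {β : ℝ} (hβ : 0 ≤ β) : ∃ n₀ : ℕ, 1 ≤ n₀ ∧ 0 < ((n₀ : ℝ) - 1 - β) / n₀ ^ 2 ∧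
    ∀ n : ℕ, 1 ≤ n → ((n : ℝ) - 1 - β) / n ^ 2 ≤ ((n₀ : ℝ) - 1 - β) / n₀ ^ 2 := by
  obtain ⟨m, hm⟩ := exists_nat_gt (1 + β)
  have hm0 : (0 : ℝ) < m := by linarith
  have hm1 : 1 ≤ m := by
    have : 0 < m := by exact_mod_cast hm0
    exact this
  set δ := ((m : ℝ) - 1 - β) / m ^ 2 with hδ
  have hδ0 : 0 < δ := by
    rw [hδ]; apply div_pos <;> [linarith; positivity]
  obtain ⟨N, hN⟩ := exists_nat_gt (1 / δ)
  set f : ℕ → ℝ := fun n => ((n : ℝ) - 1 - β) / n ^ 2 with hf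
  obtain ⟨n₀, hn₀, hmax⟩ := Finset.exists_max_image (Finset.Icc 1 (max N m)) f ⟨1, by
    rw [Finset.mem_Icc]; exact ⟨le_rfl, hm1.trans (le_max_right _ _)⟩⟩
  rw [Finset.mem_Icc] at hn₀
  have hge : δ ≤ f n₀ := hmax m (by rw [Finset.mem_Icc]; exact ⟨hm1, le_max_right _ _⟩)
  refine ⟨n₀, hn₀.1, lt_of_lt_of_le hδ0 hge, fun n hn => ?_⟩
  by_cases h : n ≤ max N m
  · exact hmax n (by rw [Finset.mem_Icc]; exact ⟨hn, h⟩)
  · push Not at h
    have hNn : (N : ℝ) < n := by exact_mod_cast (le_max_left N m).trans_lt h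
    have hn0 : (0 : ℝ) < n := by exact_mod_cast hn
    refine le_trans ?_ hge
    have h1 : 1 / δ < n := hN.trans hNn
    have h2 : 1 < δ * n := by
      rw [div_lt_iff₀ hδ0] at h1; linarith
    rw [div_le_iff₀ (by positivity)]
    nlinarith

/-- For every `β ≥ 0` the game has a value, equal to the maximum over `n ≥ 1` of
`(n - 1 - β) / n^2`. -/
theorem result : ∀ β : ℝ, 0 ≤ β → ∃ v : ℝ,
    IsGreatest {r : ℝ | ∃ n : ℕ, 1 ≤ n ∧ r = ((n : ℝ) - 1 - β) / (n : ℝ) ^ 2} v ∧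
      lowerValue β = v ∧ upperValue β = v := by
  intro β hβ
  obtain ⟨n₀, hn₀, hpos, hmax⟩ := exists_max hβ
  set v := ((n₀ : ℝ) - 1 - β) / (n₀ : ℝ) ^ 2 with hv
  have hle : ∀ n : ℕ, 1 ≤ n → (n : ℝ) - (n : ℝ) ^ 2 * v ≤ 1 + β := by
    intro n hn
    have hn0 : (0 : ℝ) < n := by exact_mod_cast hn
    have := hmax n hn
    rw [div_le_iff₀ (by positivity)] at this
    linarith
  have heq : (n₀ : ℝ) - (n₀ : ℝ) ^ 2 * v = 1 + β := by
    have hn0 : (0 : ℝ) < n₀ := by exact_mod_cast hn₀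
    rw [hv]; field_simp; ring
  refine ⟨v, ⟨⟨n₀, hn₀, rfl⟩, ?_⟩, ?_⟩
  · rintro r ⟨n, hn, rfl⟩
    exact hmax n hn
  · have : Nonempty (ProbabilityMeasure Red) := by
      obtain ⟨μ, _⟩ := exists_red hβ n₀ hn₀ rfl 1 one_pos
      exact ⟨μ⟩
    have : Nonempty (ProbabilityMeasure Blue) := by
      obtain ⟨ν, _⟩ := exists_blue hβ hpos hle n₀ heq
      exact ⟨ν⟩
    exact game_value (expPayoff β) (1 + β) (expPayoff_abs hβ) v
      (fun ε hε => exists_red hβ n₀ hn₀ rfl ε hε) (exists_blue hβ hpos hle n₀ heq)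

end

end Pool.Agent.Results.MP_d7d923_pr.GreedyGameValue
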